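import Pool.Agent.Helper18.EW.Goals
import Pool.Agent.Helper63.Hw.H1

/-!
Packet G1 of the project EW: a special point is a play with one point.
-/

set_option autoImplicit false

namespace Pool.Agent.Helper67.EW

open Finset
open Pool.Agent.Helper18.EW
open Pool.Agent.Helper43.Hw (T na va lz Play aa ac sc oo sk U Dd Sd Pn nx bb np)
open Pool.Agent.Helper43.Hw.PkH1 (k_iff a_iff goalH1)
open Pool.Agent.Helper43.Gm (st mv nn Pri)

variable {μ R K τ s E : ℕ} {e P : ℕ → ℕ} {i : ℕ}

theorem gs_cases (s : ℕ) (e P : ℕ → ℕ) (i : ℕ) :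
    (gs s e P i = s ∧ e i ≤ P (s - 1)) ∨ (gs s e P i = s - 1 ∧ P (s - 1) < e i) := by
  unfold gs
  by_cases h1 : e i ≤ P (s - 1)
  · left; rw [if_pos h1]; exact ⟨rfl, h1⟩
  · right; rw [if_neg h1]; exact ⟨rfl, by omega⟩

theorem step (h : Grp μ R K τ s E e P) (hi : i < K) {t : ℕ} (h1 : τ ≤ t) (h2 : t + 1 < s) :
    P (t + 1) / e i + 1 ≤ P t / e i := by
  obtain ⟨e1, e2, e3⟩ := h.e1 i hi
  have h3 := h.dr t h1 h2
  have h4 : P (t + 1) + e i ≤ P t := by omega
  calc P (t + 1) / e i + 1 = (P (t + 1) + e i) / e i := (Nat.add_div_right _ e1).symm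
    _ ≤ P t / e i := Nat.div_le_div_right h4

theorem steps (h : Grp μ R K τ s E e P) (hi : i < K) {t : ℕ} (h1 : τ ≤ t) (k : ℕ)
    (h2 : t + k < s) : P (t + k) / e i + k ≤ P t / e i := by
  induction k with
  | zero => simp
  | succ k ih =>
    have h3 := ih (by omega)
    have h4 := step h hi (t := t + k) (by omega) (by omega)
    have h5 : t + (k + 1) = t + k + 1 := by ring
    rw [h5]
    omega

theorem pos_of_lt (h : Grp μ R K τ s E e P) (hi : i < K) {t : ℕ} (h1 : τ ≤ t)
    (h2 : t < gs s e P i) : 1 ≤ P t / e i := by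
  obtain ⟨e1, e2, e3⟩ := h.e1 i hi
  rcases gs_cases s e P i with ⟨h3, h4⟩ | ⟨h3, h4⟩
  · rw [h3] at h2
    by_cases h5 : t + 1 < s
    · exact le_trans (Nat.le_add_left 1 _) (step h hi h1 h5)
    · have h6 : t = s - 1 := by omega
      rw [h6]
      exact (Nat.one_le_div_iff e1).2 h4
  · rw [h3] at h2
    exact le_trans (Nat.le_add_left 1 _) (step h hi (t := t) h1 (by omega))

theorem gx_in {y : ℕ} (h1 : τ ≤ y) (h2 : y < gs s e P i) :
    gx μ τ s e P i y = μ - P y / e i := by
  unfold gx
  rw [if_pos ⟨h1, h2⟩]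

theorem gx_out {y : ℕ} (h1 : ¬ (τ ≤ y ∧ y < gs s e P i)) : gx μ τ s e P i y = 0 := by
  unfold gx
  rw [if_neg h1]

theorem gk_in {y : ℕ} (h2 : y < gs s e P i) : gk s e P i y = 0 := by
  unfold gk
  rw [if_pos h2]

theorem gk_out {y : ℕ} (h2 : ¬ y < gs s e P i) : gk s e P i y = 1 := by
  unfold gk
  rw [if_neg h2]

theorem play (hμ : 1 ≤ μ) (h : Grp μ R K τ s E e P) (hi : i < K) :
    Play μ R 1 (gk s e P i) (gx μ τ s e P i) := by
  have t1 := h.t1
  have tJ := h.tJ
  have ts := h.ts
  have Js := h.Js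
  have sR := h.sR
  have hg := gs_cases s e P i
  have hg1 : s - 1 ≤ gs s e P i := by rcases hg with ⟨h3, _⟩ | ⟨h3, _⟩ <;> omega
  have hg2 : gs s e P i ≤ s := by rcases hg with ⟨h3, _⟩ | ⟨h3, _⟩ <;> omega
  refine ⟨?_, ?_, ?_, ?_, ?_, ?_, ?_, ?_⟩
  · intro y _
    by_cases h1 : y < gs s e P i
    · rw [gk_in h1]; exact Nat.zero_le _
    · rw [gk_out h1, gk_out (by omega)]
  · intro y _
    by_cases h1 : y < gs s e P i
    · rw [gk_in h1]; exact Nat.zero_le _
    · rw [gk_out h1]
  · intro y _
    by_cases h1 : τ ≤ y ∧ y < gs s e P i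
    · rw [gx_in h1.1 h1.2]
      have := pos_of_lt h hi h1.1 h1.2
      omega
    · rw [gx_out h1]; omega
  · intro y hy hk
    have h1 : y < gs s e P i := by
      by_contra h1
      rw [gk_out h1] at hk
      omega
    by_cases h2 : τ ≤ y
    · rw [gx_in h2 h1]
      by_cases h3 : y ≤ R - 1 - μ
      · unfold na; omega
      · have h4 := steps h hi (t := R - 1 - μ) (by omega) (y - (R - 1 - μ)) (by omega)
        have h5 : R - 1 - μ + (y - (R - 1 - μ)) = y := by omega
        rw [h5] at h4
        have h6 := h.ma i hi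
        unfold na
        omega
    · rw [gx_out (fun h3 => h2 h3.1)]
      unfold na
      omega
  · intro y hy hk
    apply gx_out
    rintro ⟨h1, h2⟩
    rw [gk_in h2] at hk
    omega
  · intro y hy h0 hk
    have h1 : τ ≤ y ∧ y < gs s e P i := by
      by_contra h1
      rw [gx_out h1] at h0
      omega
    rw [gk_in h1.2] at hk
    have h2 : y + 1 < gs s e P i := by
      by_contra h2
      rw [gk_out h2] at hk
      omega
    rw [gx_in h1.1 h1.2] at h0 ⊢
    rw [gx_in (by omega) h2]
    have := step h hi h1.1 (by omega)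
    omega
  · rw [gk_out (by omega), gk_out (by omega)]
  · intro h1
    rw [gk_out (by omega)] at h1
    omega

theorem goalG1 : GoalG1 := by
  intro μ R K τ s E e P hμ h i hi
  have t1 := h.t1
  have tJ := h.tJ
  have ts := h.ts
  have Js := h.Js
  have sR := h.sR
  have hg := gs_cases s e P i
  have hg1 : s - 1 ≤ gs s e P i := by rcases hg with ⟨h3, _⟩ | ⟨h3, _⟩ <;> omega
  have hg2 : gs s e P i ≤ s := by rcases hg with ⟨h3, _⟩ | ⟨h3, _⟩ <;> omega
  have hp := play hμ h hi
  have key : ∀ t, τ ≤ t → t < s → (ac R (gk s e P i) (gx μ τ s e P i) 0 ≤ t ↔ P t / e i < μ) := by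
    intro t h1 h2
    have h3 := a_iff hp 0 (y := t) (by omega)
    have h4 : (aa (gk s e P i) (gx μ τ s e P i) t ≤ 0) ↔ ¬ P t / e i < μ := by
      unfold aa
      by_cases h5 : t < gs s e P i
      · rw [gk_in h5, gx_in h1 h5]
        by_cases h6 : P t / e i < μ
        · rw [if_pos (by omega)]; omega
        · rw [if_neg (by omega)]; omega
      · rw [gk_out h5]
        rcases hg with ⟨h6, _⟩ | ⟨h6, h7⟩
        · omega
        · have h8 : t = s - 1 := by omega
          have h9 : P t / e i = 0 := by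
            rw [h8]
            exact Nat.div_eq_of_lt h7
          rw [h9]
          omega
    rw [h4] at h3
    constructor
    · intro h5
      by_contra h6
      have := h3.1 h6
      omega
    · intro h5
      by_contra h6
      exact (h3.2 (by omega)) h5
  refine ⟨hp, ⟨?_, ?_, key⟩, ?_, ?_, ?_⟩
  · have h3 := a_iff hp 0 (y := τ - 1) (by omega)
    have h4 : aa (gk s e P i) (gx μ τ s e P i) (τ - 1) ≤ 0 := by
      unfold aa
      rw [gk_in (by omega), gx_out (by omega)]
      simp
    have := h3.1 h4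
    omega
  · exact (key (R - 1 - μ) (by omega) (by omega)).2 (h.ma i hi)
  · intro z hz
    unfold va nn
    rw [if_neg (by omega), if_neg (by omega), if_pos (gk_in (by omega)), gx_out (by omega)]
  · intro z h1 h2
    by_cases h3 : z < gs s e P i
    · unfold va nn
      rw [if_neg (by omega), if_neg (by omega), if_pos (gk_in h3), gx_in h1 h3]
    · have h4 : sc R (gk s e P i) 0 = z := by
        apply le_antisymm
        · by_contra h5
          have h6 := (k_iff hp 0 (y := z) (by omega)).2 (by omega)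
          rw [gk_out h3] at h6
          omega
        · by_contra h5
          have h7 : sc R (gk s e P i) 0 < R := by omega
          have h6 : ¬ gk s e P i (sc R (gk s e P i) 0) ≤ 0 := fun h8 =>
            absurd ((k_iff hp 0 h7).1 h8) (lt_irrefl _)
          rw [gk_in (by omega)] at h6
          omega
      have h5 := (goalH1 μ R 1 _ _ hμ (by omega) hp).2.2.2.1 0 (by omega)
      rw [h4] at h5
      rw [h5]
      rcases hg with ⟨h6, _⟩ | ⟨h6, h7⟩
      · omega
      · have h8 : z = s - 1 := by omega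
        rw [h8, Nat.div_eq_of_lt h7]
        omega
  · intro z hz
    unfold va nn
    rw [if_neg (by omega), if_neg (by omega)]
    by_cases h3 : z < gs s e P i
    · rw [if_pos (gk_in h3)]
      by_cases h4 : τ ≤ z
      · rw [gx_in h4 h3]; exact Nat.sub_le _ _
      · rw [gx_out (fun h5 => h4 h5.1)]; omega
    · rw [if_neg (by rw [gk_out h3]; omega)]
      exact (Nat.sub_le _ _).trans (Nat.sub_le _ _)

end Pool.Agent.Helper67.EW
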